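import Mathlib

/-! Abstract lemma of helper44's note 7046 (MP_a46c6f_co): a finite symmetric relation (loops
allowed) in which closed pairs have midpoints; a minimal cell with an induced P4 contains a P4
with loops 0,1,1,0 and without bad vertex. -/

namespace Pool.Agent.H22.P4

open Finset

variable {X : Type*}

/-- no induced P4 inside `D` (the four vertices are automatically different) -/
def Free (R : X → X → Prop) (D : Finset X) : Prop :=
  ∀ a ∈ D, ∀ b ∈ D, ∀ c ∈ D, ∀ d ∈ D,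
    R a b → R b c → R c d → ¬ R a c → ¬ R a d → ¬ R b d → False

/-- closed pairs have midpoints inside `D` -/
def Pairs (R : X → X → Prop) (D : Finset X) : Prop :=
  ∀ u ∈ D, ∀ v ∈ D, (R u u ↔ R v v) → (R u v ↔ ¬ R u u) →
    ∃ g ∈ D, (R g g ↔ ¬ R u u) ∧ (R g u ↔ ¬ R u u) ∧ (R g v ↔ ¬ R u u) ∧
      ∀ y ∈ D, (R u y ↔ R v y) → (R g y ↔ R u y)

theorem Free.mono {R : X → X → Prop} {D E : Finset X} (h : Free R E) (hDE : D ⊆ E) :
    Free R D :=
  fun a ha b hb c hc d hd => h a (hDE ha) b (hDE hb) c (hDE hc) d (hDE hd)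

theorem Free.compl {R : X → X → Prop} (hs : ∀ x y, R x y → R y x) {D : Finset X}
    (h : Free R D) : Free (fun x y => ¬ R x y) D := by
  intro a ha b hb c hc d hd h1 h2 h3 h4 h5 h6
  exact h c hc a ha d hd b hb (hs _ _ (not_not.1 h4)) (not_not.1 h5) (hs _ _ (not_not.1 h6))
    h3 (fun h => h2 (hs _ _ h)) h1

theorem Pairs.compl {R : X → X → Prop} {D : Finset X}
    (h : Pairs R D) : Pairs (fun x y => ¬ R x y) D := by
  intro u hu v hv h1 h2
  obtain ⟨g, hg, h3, h4, h5, h6⟩ := h u hu v hv (by tauto) (by tauto)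
  refine ⟨g, hg, by tauto, by tauto, by tauto, ?_⟩
  intro y hy h7
  have := h6 y hy (by tauto)
  tauto

/-- a set `A` cut off from the rest of `D`, homogeneously -/
def Cut (R : X → X → Prop) (D : Finset X) : Prop :=
  ∃ A ⊆ D, A.Nonempty ∧ (∃ x ∈ D, x ∉ A) ∧
    ((∀ a ∈ A, ∀ b ∈ D, b ∉ A → R a b) ∨ (∀ a ∈ A, ∀ b ∈ D, b ∉ A → ¬ R a b))

theorem cut_step [DecidableEq X] {R : X → X → Prop} (hs : ∀ x y, R x y → R y x)
    {D : Finset X} {v : X} (hv : v ∉ D) (hF : Free R (insert v D)) {A : Finset X} (hAD : A ⊆ D)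
    (hA : A.Nonempty) (hB : ∃ x ∈ D, x ∉ A) (hn : ∀ a ∈ A, ∀ b ∈ D, b ∉ A → ¬ R a b) :
    Cut R (insert v D) := by
  classical
  have hvi : v ∈ insert v D := mem_insert_self _ _
  have hDi : ∀ {x}, x ∈ D → x ∈ insert v D := fun h => mem_insert_of_mem h
  by_cases h1 : ∃ a ∈ A, R v a
  swap
  · push Not at h1
    refine ⟨A, fun x hx => hDi (hAD hx), hA, ?_, Or.inr ?_⟩
    · obtain ⟨x, hx, hxA⟩ := hB
      exact ⟨x, hDi hx, hxA⟩
    · intro a ha b hb hbA
      rcases mem_insert.1 hb with rfl | hb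
      · exact fun h => h1 a ha (hs _ _ h)
      · exact hn a ha b hb hbA
  by_cases h2 : ∃ b ∈ D, b ∉ A ∧ R v b
  swap
  · push Not at h2
    refine ⟨D.filter (· ∉ A), ?_, ?_, ?_, Or.inr ?_⟩
    · intro x hx; exact hDi (mem_filter.1 hx).1
    · obtain ⟨x, hx, hxA⟩ := hB
      exact ⟨x, mem_filter.2 ⟨hx, hxA⟩⟩
    · obtain ⟨a, ha⟩ := hA
      exact ⟨a, hDi (hAD ha), fun h => (mem_filter.1 h).2 ha⟩
    · intro b hb y hy hyB
      obtain ⟨hbD, hbA⟩ := mem_filter.1 hb
      rcases mem_insert.1 hy with rfl | hy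
      · exact fun h => h2 b hbD hbA (hs _ _ h)
      · have hyA : y ∈ A := by
          by_contra h
          exact hyB (mem_filter.2 ⟨hy, h⟩)
        exact fun h => hn y hyA b hbD hbA (hs _ _ h)
  obtain ⟨a, ha, hva⟩ := h1
  obtain ⟨b, hbD, hbA, hvb⟩ := h2
  by_cases h3 : ∀ x ∈ D, R v x
  · refine ⟨{v}, by simp, by simp, ⟨a, hDi (hAD ha), ?_⟩, Or.inl ?_⟩
    · intro h
      rw [mem_singleton.1 h] at ha
      exact hv (hAD ha)
    · intro p hp y hy hyv
      rw [mem_singleton.1 hp]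
      rcases mem_insert.1 hy with rfl | hy
      · exact absurd (mem_singleton_self _) hyv
      · exact h3 y hy
  push Not at h3
  obtain ⟨x, hxD, hvx⟩ := h3
  by_cases hxA : x ∈ A
  · refine ⟨A.filter (fun y => ¬ R v y), ?_, ⟨x, mem_filter.2 ⟨hxA, hvx⟩⟩,
      ⟨a, hDi (hAD ha), fun h => (mem_filter.1 h).2 hva⟩, Or.inr ?_⟩
    · intro y hy; exact hDi (hAD (mem_filter.1 hy).1)
    · intro p hp y hy hyB
      obtain ⟨hpA, hvp⟩ := mem_filter.1 hp
      rcases mem_insert.1 hy with rfl | hy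
      · exact fun h => hvp (hs _ _ h)
      · by_cases hyA : y ∈ A
        · have hvy : R v y := by
            by_contra h
            exact hyB (mem_filter.2 ⟨hyA, h⟩)
          intro hpy
          exact hF p (hDi (hAD hpA)) y (hDi hy) v hvi b (hDi hbD) hpy (hs _ _ hvy) hvb
            (fun h => hvp (hs _ _ h)) (hn p hpA b hbD hbA) (hn y hyA b hbD hbA)
        · exact hn p hpA y hy hyA
  · refine ⟨D.filter (fun y => y ∉ A ∧ ¬ R v y), ?_, ⟨x, mem_filter.2 ⟨hxD, hxA, hvx⟩⟩,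
      ⟨b, hDi hbD, fun h => (mem_filter.1 h).2.2 hvb⟩, Or.inr ?_⟩
    · intro y hy; exact hDi (mem_filter.1 hy).1
    · intro p hp y hy hyB
      obtain ⟨hpD, hpA, hvp⟩ := mem_filter.1 hp
      rcases mem_insert.1 hy with rfl | hy
      · exact fun h => hvp (hs _ _ h)
      · by_cases hyA : y ∈ A
        · exact fun h => hn y hyA p hpD hpA (hs _ _ h)
        · have hvy : R v y := by
            by_contra h
            exact hyB (mem_filter.2 ⟨hy, hyA, h⟩)
          intro hpy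
          exact hF p (hDi hpD) y (hDi hy) v hvi a (hDi (hAD ha)) hpy (hs _ _ hvy) hva
            (fun h => hvp (hs _ _ h)) (fun h => hn a ha p hpD hpA (hs _ _ h))
            (fun h => hn a ha y hy hyA (hs _ _ h))

theorem exists_cut [DecidableEq X] {R : X → X → Prop} (hs : ∀ x y, R x y → R y x)
    (D : Finset X) : Free R D → 2 ≤ D.card → Cut R D := by
  classical
  induction D using Finset.induction_on with
  | empty => intro _ h; simp at h
  | insert v D hv ih =>
    intro hF hc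
    rw [card_insert_of_notMem hv] at hc
    by_cases h2 : 2 ≤ D.card
    · obtain ⟨A, hAD, hA, hB, h⟩ := ih (hF.mono (subset_insert _ _)) h2
      rcases h with h | h
      · have hs' : ∀ x y, (fun x y => ¬ R x y) x y → (fun x y => ¬ R x y) y x :=
          fun x y h h' => h (hs _ _ h')
        obtain ⟨A', h1, h3, h4, h5⟩ := cut_step hs' hv (hF.compl hs) hAD hA hB
          (fun a ha b hb hbA => not_not.2 (h a ha b hb hbA))
        refine ⟨A', h1, h3, h4, ?_⟩
        rcases h5 with h5 | h5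
        · exact Or.inr h5
        · exact Or.inl fun a ha b hb hbA => not_not.1 (h5 a ha b hb hbA)
      · exact cut_step hs hv hF hAD hA hB h
    · have h1 : D.card = 1 := by omega
      obtain ⟨u, rfl⟩ := card_eq_one.1 h1
      have huv : u ≠ v := fun h => hv (by simp [h])
      refine ⟨{v}, by simp, by simp, ⟨u, by simp, by simpa using huv⟩, ?_⟩
      by_cases hR : R v u
      · left
        intro a ha b hb hba
        rw [mem_singleton.1 ha]
        rcases mem_insert.1 hb with rfl | hb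
        · exact absurd (mem_singleton_self _) hba
        · rw [mem_singleton.1 hb]; exact hR
      · right
        intro a ha b hb hba
        rw [mem_singleton.1 ha]
        rcases mem_insert.1 hb with rfl | hb
        · exact absurd (mem_singleton_self _) hba
        · rw [mem_singleton.1 hb]; exact hR

/-- at distance at most two inside `D` -/
def S (R : X → X → Prop) (D : Finset X) (x y : X) : Prop :=
  y = x ∨ R x y ∨ ∃ p ∈ D, R x p ∧ R p y

theorem S.symm {R : X → X → Prop} (hs : ∀ x y, R x y → R y x) {D : Finset X} {x y : X}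
    (h : S R D x y) : S R D y x := by
  rcases h with rfl | h | ⟨p, hp, h1, h2⟩
  · exact Or.inl rfl
  · exact Or.inr (Or.inl (hs _ _ h))
  · exact Or.inr (Or.inr ⟨p, hp, hs _ _ h2, hs _ _ h1⟩)

theorem S.step {R : X → X → Prop} {D : Finset X}
    (hF : Free R D) {x y z : X} (hx : x ∈ D) (hy : y ∈ D) (hz : z ∈ D) (h : S R D x y)
    (hyz : R y z) : S R D x z := by
  rcases h with rfl | h | ⟨p, hp, h1, h2⟩
  · exact Or.inr (Or.inl hyz)
  · exact Or.inr (Or.inr ⟨y, hy, h, hyz⟩)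
  · by_cases h3 : R x z
    · exact Or.inr (Or.inl h3)
    · by_cases h4 : R p z
      · exact Or.inr (Or.inr ⟨p, hp, h1, h4⟩)
      · by_cases h5 : R x y
        · exact Or.inr (Or.inr ⟨y, hy, h5, hyz⟩)
        · exact (hF x hx p hp y hy z hz h1 h2 hyz h5 h3 h4).elim

theorem S.trans {R : X → X → Prop} {D : Finset X}
    (hF : Free R D) {x y z : X} (hx : x ∈ D) (hy : y ∈ D) (hz : z ∈ D) (h : S R D x y)
    (h' : S R D y z) : S R D x z := by
  rcases h' with rfl | h' | ⟨p, hp, h1, h2⟩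
  · exact h
  · exact h.step hF hx hy hz h'
  · exact (h.step hF hx hy hp h1).step hF hx hp hz h2

open Classical in
/-- the component of `x` in `D` -/
noncomputable def comp (R : X → X → Prop) (D : Finset X) (x : X) : Finset X :=
  D.filter (fun y => S R D x y)

theorem mem_comp {R : X → X → Prop} {D : Finset X} {x y : X} :
    y ∈ comp R D x ↔ y ∈ D ∧ S R D x y := by
  classical
  unfold comp
  rw [mem_filter]

theorem comp_sub {R : X → X → Prop} {D : Finset X} {x : X} : comp R D x ⊆ D :=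
  fun _ hy => (mem_comp.1 hy).1

theorem comp_closed {R : X → X → Prop} {D : Finset X} (hF : Free R D) {x y z : X}
    (hx : x ∈ D) (hy : y ∈ comp R D x) (hz : z ∈ D) (h : R y z) : z ∈ comp R D x :=
  mem_comp.2 ⟨hz, (mem_comp.1 hy).2.step hF hx (mem_comp.1 hy).1 hz h⟩

theorem comp_pairs {R : X → X → Prop} (hs : ∀ x y, R x y → R y x) {D : Finset X}
    (hF : Free R D) (hP : Pairs R D) {x : X} (hx : x ∈ D) : Pairs R (comp R D x) := by
  intro u hu v hv h1 h2
  obtain ⟨g, hg, h3, h4, h5, h6⟩ := hP u (comp_sub hu) v (comp_sub hv) h1 h2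
  refine ⟨g, ?_, h3, h4, h5, fun y hy => h6 y (comp_sub hy)⟩
  by_cases hl : R u u
  · -- loops 1, not adjacent: common neighbour
    have huv : ¬ R u v := fun h => (h2.1 h) hl
    have hS : S R D u v := ((mem_comp.1 hu).2.symm hs).trans hF (comp_sub hu) hx
      (comp_sub hv) (mem_comp.1 hv).2
    rcases hS with rfl | hS | ⟨p, hp, h7, h8⟩
    · exact (huv hl).elim
    · exact (huv hS).elim
    · have hgp : R g p := (h6 p hp ⟨fun _ => hs _ _ h8, fun _ => h7⟩).2 h7
      exact comp_closed hF hx (comp_closed hF hx hu hp h7) hg (hs _ _ hgp)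
  · exact comp_closed hF hx hu hg (hs _ _ (h4.2 hl))

theorem dis {R : X → X → Prop} (hs : ∀ x y, R x y → R y x) {D : Finset X}
    (hF : Free R D) (hP : Pairs R D)
    (ih : ∀ K ⊆ D, K.card < D.card → K.Nonempty → Pairs R K → Free R K →
      ∃ x ∈ K, (∀ y ∈ K, R x y) ∨ (∀ y ∈ K, ¬ R x y))
    {x₁ x₂ : X} (h1 : x₁ ∈ D) (h2 : x₂ ∈ D) (h12 : ¬ S R D x₁ x₂) :
    ∃ z ∈ D, ∀ y ∈ D, ¬ R z y := by
  have key : ∀ x ∈ D, (∃ y ∈ D, ¬ S R D x y) → (∃ z ∈ D, ∀ y ∈ D, ¬ R z y) ∨
      ∃ f ∈ comp R D x, ∀ y ∈ comp R D x, R f y := by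
    intro x hx ⟨y, hy, hxy⟩
    obtain ⟨f, hf, h | h⟩ := ih (comp R D x) comp_sub
      (card_lt_card ⟨comp_sub, fun h => hxy (mem_comp.1 (h hy)).2⟩)
      ⟨x, mem_comp.2 ⟨hx, Or.inl rfl⟩⟩ (comp_pairs hs hF hP hx) (hF.mono comp_sub)
    · exact Or.inr ⟨f, hf, h⟩
    · refine Or.inl ⟨f, comp_sub hf, fun y hy hfy => ?_⟩
      exact h y (comp_closed hF hx hf hy hfy) hfy
  rcases key x₁ h1 ⟨x₂, h2, h12⟩ with h | ⟨f₁, hf₁, hfull₁⟩
  · exact h
  rcases key x₂ h2 ⟨x₁, h1, fun h => h12 (h.symm hs)⟩ with h | ⟨f₂, hf₂, hfull₂⟩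
  · exact h
  have hdisj : ∀ y, y ∈ comp R D x₁ → y ∈ comp R D x₂ → False := by
    intro y hy hy'
    exact h12 ((mem_comp.1 hy).2.trans hF h1 (comp_sub hy) h2 ((mem_comp.1 hy').2.symm hs))
  have hn : ¬ R f₁ f₂ := fun h => hdisj f₂ (comp_closed hF h1 hf₁ (comp_sub hf₂) h) hf₂
  have hl1 : R f₁ f₁ := hfull₁ f₁ hf₁
  have hl2 : R f₂ f₂ := hfull₂ f₂ hf₂
  obtain ⟨g, hg, h3, h4, h5, h6⟩ := hP f₁ (comp_sub hf₁) f₂ (comp_sub hf₂) (by tauto) (by tauto)
  have hg1 : g ∉ comp R D x₁ := fun h => (h4.1 (hs _ _ (hfull₁ g h))) hl1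
  have hg2 : g ∉ comp R D x₂ := fun h => (h5.1 (hs _ _ (hfull₂ g h))) hl1
  refine ⟨g, hg, fun y hy hgy => ?_⟩
  by_cases hy1 : y ∈ comp R D x₁
  · exact hg1 (comp_closed hF h1 hy1 hg (hs _ _ hgy))
  by_cases hy2 : y ∈ comp R D x₂
  · exact hg2 (comp_closed hF h2 hy2 hg (hs _ _ hgy))
  have h7 : ¬ R f₁ y := fun h => hy1 (comp_closed hF h1 hf₁ hy h)
  have h8 : ¬ R f₂ y := fun h => hy2 (comp_closed hF h2 hf₂ hy h)
  exact h7 ((h6 y hy (by tauto)).1 hgy)

/-- CLAIM A: a P4-free set with midpoints has a constant vertex. -/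
theorem claimA [DecidableEq X] : ∀ (n : ℕ) (R : X → X → Prop), (∀ x y, R x y → R y x) →
    ∀ D : Finset X, D.card = n → D.Nonempty → Pairs R D → Free R D →
      ∃ x ∈ D, (∀ y ∈ D, R x y) ∨ (∀ y ∈ D, ¬ R x y) := by
  intro n
  induction n using Nat.strong_induction_on with
  | _ n ih =>
    intro R hs D hn hne hP hF
    have ihR : ∀ (R : X → X → Prop), (∀ x y, R x y → R y x) → ∀ K ⊆ D, K.card < D.card →
        K.Nonempty → Pairs R K → Free R K →
        ∃ x ∈ K, (∀ y ∈ K, R x y) ∨ (∀ y ∈ K, ¬ R x y) :=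
      fun R hs K _ hK h1 h2 h3 => ih K.card (hn ▸ hK) R hs K rfl h1 h2 h3
    by_cases hc : 2 ≤ D.card
    · obtain ⟨A, hAD, ⟨a, ha⟩, ⟨b, hb, hbA⟩, h⟩ := exists_cut hs D hF hc
      have gen : ∀ (R : X → X → Prop), (∀ x y, R x y → R y x) →
          (∀ a ∈ A, ∀ b ∈ D, b ∉ A → ¬ R a b) → ¬ S R D a b := by
        intro R hs h hS
        rcases hS with rfl | hS | ⟨p, hp, h1, h2⟩
        · exact hbA ha
        · exact h a ha b hb hbA hS
        · by_cases hpA : p ∈ A
          · exact h p hpA b hb hbA h2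
          · exact h a ha p hp hpA h1
      rcases h with h | h
      · have hs' : ∀ x y, (fun x y => ¬ R x y) x y → (fun x y => ¬ R x y) y x :=
          fun x y h h' => h (hs _ _ h')
        obtain ⟨z, hz, h1⟩ := dis hs' (hF.compl hs) hP.compl (ihR _ hs') (hAD ha) hb
          (gen _ hs' (fun a ha b hb hbA => not_not.2 (h a ha b hb hbA)))
        exact ⟨z, hz, Or.inl fun y hy => not_not.1 (h1 y hy)⟩
      · obtain ⟨z, hz, h1⟩ := dis hs hF hP (ihR R hs) (hAD ha) hb (gen R hs h)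
        exact ⟨z, hz, Or.inr h1⟩
    · obtain ⟨x, hx⟩ := hne
      have h1 : ∀ y ∈ D, y = x := by
        have : D.card ≤ 1 := by omega
        exact fun y hy => card_le_one.1 this y hy x hx
      by_cases hR : R x x
      · exact ⟨x, hx, Or.inl fun y hy => by rw [h1 y hy]; exact hR⟩
      · exact ⟨x, hx, Or.inr fun y hy => by rw [h1 y hy]; exact hR⟩

/-- a component which is not one loopless vertex has a full vertex -/
theorem comp_full [DecidableEq X] {R : X → X → Prop} (hs : ∀ x y, R x y → R y x) {D : Finset X}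
    (hF : Free R D) (hP : Pairs R D) {x y : X} (hx : x ∈ D) (hy : y ∈ D) (hxy : R x y) :
    ∃ f ∈ comp R D x, ∀ w ∈ comp R D x, R f w := by
  obtain ⟨f, hf, h | h⟩ := claimA _ R hs (comp R D x) rfl ⟨x, mem_comp.2 ⟨hx, Or.inl rfl⟩⟩
    (comp_pairs hs hF hP hx) (hF.mono comp_sub)
  · exact ⟨f, hf, h⟩
  · exfalso
    have hz : ∀ w ∈ D, ¬ R f w := fun w hw hfw => h w (comp_closed hF hx hf hw hfw) hfw
    rcases (mem_comp.1 hf).2 with rfl | h1 | ⟨p, hp, h1, h2⟩
    · exact hz y hy hxy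
    · exact hz x hx (hs _ _ h1)
    · exact hz p hp (hs _ _ h2)

end Pool.Agent.H22.P4
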