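import Pool.Agent.H22.P4.Abs

namespace Pool.Agent.H22.P4

open Finset

variable {X : Type*}

/-- the two sides of a non-constant vertex are P4-free -/
def Sides (R : X → X → Prop) (C : Finset X) : Prop :=
  ∀ w ∈ C, (∃ x ∈ C, R w x) → (∃ x ∈ C, ¬ R w x) → ∀ D ⊆ C,
    ((∀ y ∈ D, R w y) ∨ (∀ y ∈ D, ¬ R w y)) → Free R D

theorem Sides.compl {R : X → X → Prop} (hs : ∀ x y, R x y → R y x) {C : Finset X}
    (h : Sides R C) : Sides (fun x y => ¬ R x y) C := by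
  intro w hw h1 h2 D hD h3
  obtain ⟨x, hx, hx'⟩ := h2
  refine (h w hw ⟨x, hx, not_not.1 hx'⟩ h1 D hD ?_).compl hs
  rcases h3 with h3 | h3
  · exact Or.inr h3
  · exact Or.inl fun y hy => not_not.1 (h3 y hy)

/-- a P4 with loops 0,1,1,0 without bad vertex in `C` -/
def Good (R : X → X → Prop) (C : Finset X) : Prop :=
  ∃ a ∈ C, ∃ b ∈ C, ∃ c ∈ C, ∃ d ∈ C, R a b ∧ R b c ∧ R c d ∧ ¬ R a c ∧ ¬ R a d ∧ ¬ R b d ∧
    ¬ R a a ∧ R b b ∧ R c c ∧ ¬ R d d ∧
    ∀ g ∈ C, ¬ ((R g b ↔ ¬ R g c) ∧ (R g a ↔ ¬ R g d))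

theorem Good.compl {R : X → X → Prop} (hs : ∀ x y, R x y → R y x) {C : Finset X}
    (h : Good (fun x y => ¬ R x y) C) : Good R C := by
  obtain ⟨a, ha, b, hb, c, hc, d, hd, h1, h2, h3, h4, h5, h6, h7, h8, h9, h10, h11⟩ := h
  refine ⟨c, hc, a, ha, d, hd, b, hb, hs _ _ (not_not.1 h4), not_not.1 h5,
    hs _ _ (not_not.1 h6), h3, fun h => h2 (hs _ _ h), h1, h9, not_not.1 h7, not_not.1 h10, h8,
    ?_⟩
  intro g hg h12
  have := h11 g hg
  tauto

theorem pairs_cell {R : X → X → Prop} {C D : Finset X} (hP : Pairs R C) (hD : D ⊆ C)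
    (hcell : ∀ g ∈ C, ∀ u ∈ D, ∀ v ∈ D,
      (∀ y ∈ C, (R u y ↔ R v y) → (R g y ↔ R u y)) → g ∈ D) : Pairs R D := by
  intro u hu v hv h1 h2
  obtain ⟨g, hg, h3, h4, h5, h6⟩ := hP u (hD hu) v (hD hv) h1 h2
  exact ⟨g, hcell g hg u hu v hv h6, h3, h4, h5, fun y hy => h6 y (hD hy)⟩

theorem good_nf [DecidableEq X] {R : X → X → Prop} (hs : ∀ x y, R x y → R y x) {C : Finset X}
    (hP : Pairs R C) (hS : Sides R C) (h4 : ¬ Free R C)
    (hnf : ∀ x ∈ C, ∃ y ∈ C, ¬ R x y) : Good R C := by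
  classical
  -- nonempty pairs-cells
  have cell1 : ∀ w ∈ C, Pairs R (C.filter (fun y => R w y)) := by
    intro w hw
    refine pairs_cell hP (filter_subset _ _) ?_
    intro g hg u hu v hv h
    obtain ⟨_, hu⟩ := mem_filter.1 hu
    obtain ⟨_, hv⟩ := mem_filter.1 hv
    exact mem_filter.2 ⟨hg, hs _ _ ((h w hw ⟨fun _ => hs _ _ hv, fun _ => hs _ _ hu⟩).2
      (hs _ _ hu))⟩
  have cell0 : ∀ w ∈ C, Pairs R (C.filter (fun y => ¬ R w y)) := by
    intro w hw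
    refine pairs_cell hP (filter_subset _ _) ?_
    intro g hg u hu v hv h
    obtain ⟨_, hu⟩ := mem_filter.1 hu
    obtain ⟨_, hv⟩ := mem_filter.1 hv
    refine mem_filter.2 ⟨hg, fun h' => hu (hs _ _ ((h w hw ⟨fun h => ?_, fun h => ?_⟩).1
      (hs _ _ h')))⟩
    · exact (hu (hs _ _ h)).elim
    · exact (hv (hs _ _ h)).elim
  have cell10 : ∀ b ∈ C, ∀ c ∈ C, Pairs R (C.filter (fun y => R b y ∧ ¬ R c y)) := by
    intro b hb c hc
    refine pairs_cell hP (filter_subset _ _) ?_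
    intro g hg u hu v hv h
    obtain ⟨_, hu, hu'⟩ := mem_filter.1 hu
    obtain ⟨_, hv, hv'⟩ := mem_filter.1 hv
    refine mem_filter.2 ⟨hg, hs _ _ ((h b hb ⟨fun _ => hs _ _ hv, fun _ => hs _ _ hu⟩).2
      (hs _ _ hu)), fun h' => hu' (hs _ _ ((h c hc ⟨fun h => ?_, fun h => ?_⟩).1
      (hs _ _ h')))⟩
    · exact (hu' (hs _ _ h)).elim
    · exact (hv' (hs _ _ h)).elim
  -- (1)
  have s1 : ∀ w ∈ C, ¬ R w w → (∃ x ∈ C, R w x) →
      ∃ x ∈ C, R x x ∧ R x w ∧ ∀ y ∈ C, R w y → R x y := by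
    intro w hw hl ⟨x₀, hx₀, hwx₀⟩
    have hF : Free R (C.filter (fun y => R w y)) :=
      hS w hw ⟨x₀, hx₀, hwx₀⟩ ⟨w, hw, hl⟩ _ (filter_subset _ _)
        (Or.inl fun y hy => (mem_filter.1 hy).2)
    obtain ⟨x, hx, h | h⟩ := claimA _ R hs _ rfl ⟨x₀, mem_filter.2 ⟨hx₀, hwx₀⟩⟩ (cell1 w hw) hF
    · obtain ⟨hxC, hwx⟩ := mem_filter.1 hx
      exact ⟨x, hxC, h x hx, hs _ _ hwx, fun y hy hwy => h y (mem_filter.2 ⟨hy, hwy⟩)⟩
    · exfalso
      obtain ⟨hxC, hwx⟩ := mem_filter.1 hx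
      obtain ⟨g, hg, h1, h2, h3, _⟩ := hP w hw x hxC ⟨fun h' => (hl h').elim,
        fun h' => (h x hx h').elim⟩ ⟨fun _ => hl, fun _ => hwx⟩
      exact h g (mem_filter.2 ⟨hg, hs _ _ (h2.2 hl)⟩) (hs _ _ (h3.2 hl))
  -- (2)
  have s2 : ∀ b ∈ C, ∀ c ∈ C, R b b → R c c → R b c → (∃ x ∈ C, R b x ∧ ¬ R c x) →
      ∃ z ∈ C, R b z ∧ ¬ R c z ∧ ∀ y ∈ C, R b y → ¬ R c y → ¬ R z y := by
    intro b hb c hc hbb hcc hbc ⟨x₀, hx₀, h1, h2⟩
    have hF : Free R (C.filter (fun y => R b y ∧ ¬ R c y)) :=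
      hS b hb ⟨b, hb, hbb⟩ (hnf b hb) _ (filter_subset _ _)
        (Or.inl fun y hy => (mem_filter.1 hy).2.1)
    obtain ⟨x, hx, h | h⟩ := claimA _ R hs _ rfl ⟨x₀, mem_filter.2 ⟨hx₀, h1, h2⟩⟩
      (cell10 b hb c hc) hF
    · exfalso
      obtain ⟨hxC, hbx, hcx⟩ := mem_filter.1 hx
      have hxx : R x x := h x hx
      obtain ⟨g, hg, h3, h4, h5, h6⟩ := hP x hxC c hc ⟨fun _ => hcc, fun _ => hxx⟩
        ⟨fun h' => (hcx (hs _ _ h')).elim, fun h' => (h' hxx).elim⟩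
      have hgb : R g b := (h6 b hb ⟨fun _ => hs _ _ hbc, fun _ => hs _ _ hbx⟩).2 (hs _ _ hbx)
      have hgc : ¬ R g c := fun h' => (h5.1 h') hxx
      have hgx : ¬ R g x := fun h' => (h4.1 h') hxx
      exact hgx (hs _ _ (h g (mem_filter.2 ⟨hg, hs _ _ hgb, fun h' => hgc (hs _ _ h')⟩)))
    · obtain ⟨hxC, hbx, hcx⟩ := mem_filter.1 hx
      exact ⟨x, hxC, hbx, hcx, fun y hy h3 h4 => h y (mem_filter.2 ⟨hy, h3, h4⟩)⟩
  -- the P4
  unfold Free at h4
  push Not at h4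
  obtain ⟨p, hp, q, hq, r, hr, s, hs', hpq, hqr, hrs, hpr, hps, hqs, -⟩ := h4
  -- b of maximal neighbourhood
  obtain ⟨b, hb, hmax⟩ := exists_max_image C (fun x => (C.filter (fun y => R x y)).card) ⟨p, hp⟩
  have hmax' : ∀ x ∈ C, (∀ y ∈ C, R b y → R x y) → ∀ y ∈ C, R x y → R b y := by
    intro x hx h y hy hxy
    by_contra hby
    have hlt : (C.filter (fun y => R b y)).card < (C.filter (fun y => R x y)).card := by
      apply card_lt_card
      refine ⟨fun z hz => ?_, fun hh => hby (mem_filter.1 (hh (mem_filter.2 ⟨hy, hxy⟩))).2⟩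
      obtain ⟨hzC, hz⟩ := mem_filter.1 hz
      exact mem_filter.2 ⟨hzC, h z hzC hz⟩
    exact absurd (hmax x hx) (not_le.2 hlt)
  have hne : ∃ x ∈ C, R b x := by
    by_contra hcon
    push Not at hcon
    have := hmax' p hp (fun y hy h => (hcon y hy h).elim) q hq hpq
    exact hcon q hq this
  have hbb : R b b := by
    by_contra hbb
    obtain ⟨x, hx, hxx, hxb, hsub⟩ := s1 b hb hbb hne
    exact hbb (hmax' x hx hsub b hb hxb)
  -- an edge leaving N(b)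
  have hFin : Free R (C.filter (fun y => R b y)) :=
    hS b hb ⟨b, hb, hbb⟩ (hnf b hb) _ (filter_subset _ _) (Or.inl fun y hy => (mem_filter.1 hy).2)
  have hFout : Free R (C.filter (fun y => ¬ R b y)) :=
    hS b hb ⟨b, hb, hbb⟩ (hnf b hb) _ (filter_subset _ _) (Or.inr fun y hy => (mem_filter.1 hy).2)
  have hedge : ∃ y ∈ C, ∃ v ∈ C, R b y ∧ ¬ R b v ∧ R y v := by
    by_contra hcon
    push Not at hcon
    have cl : ∀ y ∈ C, ∀ v ∈ C, R y v → (R b y ↔ R b v) := by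
      intro y hy v hv hyv
      constructor
      · intro h
        by_contra h'
        exact hcon y hy v hv h h' hyv
      · intro h
        by_contra h'
        exact hcon v hv y hy h h' (hs _ _ hyv)
    have c1 := cl p hp q hq hpq
    have c2 := cl q hq r hr hqr
    have c3 := cl r hr s hs' hrs
    by_cases h : R b p
    · exact hFin p (mem_filter.2 ⟨hp, h⟩) q (mem_filter.2 ⟨hq, c1.1 h⟩) r
        (mem_filter.2 ⟨hr, c2.1 (c1.1 h)⟩) s (mem_filter.2 ⟨hs', c3.1 (c2.1 (c1.1 h))⟩)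
        hpq hqr hrs hpr hps hqs
    · have h1 : ¬ R b q := fun h' => h (c1.2 h')
      have h2 : ¬ R b r := fun h' => h1 (c2.2 h')
      have h3 : ¬ R b s := fun h' => h2 (c3.2 h')
      exact hFout p (mem_filter.2 ⟨hp, h⟩) q (mem_filter.2 ⟨hq, h1⟩) r
        (mem_filter.2 ⟨hr, h2⟩) s (mem_filter.2 ⟨hs', h3⟩)
        hpq hqr hrs hpr hps hqs
  -- (3)
  have s3 : ∃ d ∈ C, ¬ R d d ∧ ¬ R b d ∧ (∃ x ∈ C, R d x) ∧ ∀ y ∈ C, R d y → R b y := by
    obtain ⟨y, hy, v, hv, hby, hbv, hyv⟩ := hedge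
    -- c
    obtain ⟨c, hc, hcc, hcb, hcv⟩ : ∃ c ∈ C, R c c ∧ R c b ∧ R c v := by
      by_cases hyy : R y y
      · exact ⟨y, hy, hyy, hs _ _ hby, hyv⟩
      · obtain ⟨x, hx, hxx, hxy, hsub⟩ := s1 y hy hyy ⟨v, hv, hyv⟩
        exact ⟨x, hx, hxx, hsub b hb (hs _ _ hby), hsub v hv hyv⟩
    obtain ⟨d', hd', hcd', hbd', hiso⟩ := s2 c hc b hb hcc hbb hcb ⟨v, hv, hcv, hbv⟩
    have hd'd' : ¬ R d' d' := hiso d' hd' hcd' hbd'
    obtain ⟨q', hq', hqq, hqd, hqsub⟩ := s1 d' hd' hd'd' ⟨c, hc, hs _ _ hcd'⟩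
    have hqc : R q' c := hqsub c hc (hs _ _ hcd')
    have hbq : R b q' := by
      by_contra h
      exact hiso q' hq' (hs _ _ hqc) h (hs _ _ hqd)
    by_cases hsub : ∀ y ∈ C, R d' y → R b y
    · exact ⟨d', hd', hd'd', hbd', ⟨c, hc, hs _ _ hcd'⟩, hsub⟩
    push Not at hsub
    obtain ⟨y', hy', hdy', hby'⟩ := hsub
    have hdG : d' ∈ C.filter (fun y => ¬ R b y) := mem_filter.2 ⟨hd', hbd'⟩
    have hyG : y' ∈ C.filter (fun y => ¬ R b y) := mem_filter.2 ⟨hy', hby'⟩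
    obtain ⟨f, hf, hfull⟩ := comp_full hs hFout (cell0 b hb) hdG hyG hdy'
    have hfG := comp_sub hf
    obtain ⟨hfC, hbf⟩ := mem_filter.1 hfG
    have hff : R f f := hfull f hf
    have hfd : R f d' := hfull d' (mem_comp.2 ⟨hdG, Or.inl rfl⟩)
    obtain ⟨g, hg, h3, h4, h5, h6⟩ := hP f hfC b hb ⟨fun _ => hbb, fun _ => hff⟩
      ⟨fun h => (hbf (hs _ _ h)).elim, fun h => (h hff).elim⟩
    have hgg : ¬ R g g := fun h => (h3.1 h) hff
    have hgf : ¬ R g f := fun h => (h4.1 h) hff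
    have hgb : ¬ R g b := fun h => (h5.1 h) hff
    have hbg : ¬ R b g := fun h => hgb (hs _ _ h)
    have hgG : g ∈ C.filter (fun y => ¬ R b y) := mem_filter.2 ⟨hg, hbg⟩
    refine ⟨g, hg, hgg, hbg, ⟨q', hq', ?_⟩, ?_⟩
    · have hfq : R f q' := hs _ _ (hqsub f hfC (hs _ _ hfd))
      exact (h6 q' hq' ⟨fun _ => hbq, fun _ => hfq⟩).2 hfq
    · intro z hz hgz
      by_contra hbz
      have hzG : z ∈ C.filter (fun y => ¬ R b y) := mem_filter.2 ⟨hz, hbz⟩
      have hfz : R f z := by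
        by_contra hfz
        exact hfz ((h6 z hz ⟨fun h => (hfz h).elim, fun h => (hbz h).elim⟩).1 hgz)
      have hzK := comp_closed hFout hdG hf hzG hfz
      have hgK := comp_closed hFout hdG hzK hgG (hs _ _ hgz)
      exact hgf (hs _ _ (hfull g hgK))
  -- (4)
  obtain ⟨d, hd, hdd, hbd, hdne, hdsub⟩ := s3
  obtain ⟨c, hc, hcc, hcd, hcsub⟩ := s1 d hd hdd hdne
  have hbc : R b c := hdsub c hc (hs _ _ hcd)
  have hD : ∃ x ∈ C, R b x ∧ ¬ R c x := by
    by_contra hcon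
    push Not at hcon
    exact hbd (hmax' c hc hcon d hd hcd)
  obtain ⟨a, ha, hba, hca, haiso⟩ := s2 b hb c hc hbb hcc hbc hD
  have haa : ¬ R a a := haiso a ha hba hca
  have had : ¬ R a d := fun h => hca (hcsub a ha (hs _ _ h))
  refine ⟨a, ha, b, hb, c, hc, d, hd, hs _ _ hba, hbc, hcd, fun h => hca (hs _ _ h), had,
    hbd, haa, hbb, hcc, hdd, ?_⟩
  -- (5)
  rintro g hg ⟨hg1, hg2⟩
  by_cases hgd : R g d
  · have hbg : R b g := hdsub g hg (hs _ _ hgd)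
    have hcg : R c g := hcsub g hg (hs _ _ hgd)
    exact (hg1.1 (hs _ _ hbg)) (hs _ _ hcg)
  · have hga : R g a := hg2.2 hgd
    by_cases hgb : R g b
    · have hgc : ¬ R g c := hg1.1 hgb
      exact haiso g hg (hs _ _ hgb) (fun h => hgc (hs _ _ h)) (hs _ _ hga)
    · have hgc : R g c := by
        by_contra h
        exact hgb (hg1.2 h)
      have hdne' : ∃ y ∈ C, ¬ R d y := ⟨d, hd, hdd⟩
      have hFE : Free R (C.filter (fun y => ¬ R d y)) :=
        hS d hd hdne hdne' _ (filter_subset _ _) (Or.inr fun y hy => (mem_filter.1 hy).2)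
      have haE : a ∈ C.filter (fun y => ¬ R d y) := mem_filter.2 ⟨ha, fun h => had (hs _ _ h)⟩
      have hbE : b ∈ C.filter (fun y => ¬ R d y) := mem_filter.2 ⟨hb, fun h => hbd (hs _ _ h)⟩
      have hgE : g ∈ C.filter (fun y => ¬ R d y) := mem_filter.2 ⟨hg, fun h => hgd (hs _ _ h)⟩
      obtain ⟨f, hf, hfull⟩ := comp_full hs hFE (cell0 d hd) haE hbE (hs _ _ hba)
      have haK : a ∈ comp R (C.filter (fun y => ¬ R d y)) a := mem_comp.2 ⟨haE, Or.inl rfl⟩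
      have hbK := comp_closed hFE haE haK hbE (hs _ _ hba)
      have hgK := comp_closed hFE haE haK hgE (hs _ _ hga)
      obtain ⟨hfC, hdf⟩ := mem_filter.1 (comp_sub hf)
      have hfa := hfull a haK
      have hfb := hfull b hbK
      have hfg := hfull g hgK
      have hfc : R f c := by
        by_contra h
        exact haiso f hfC (hs _ _ hfb) (fun h' => h (hs _ _ h')) (hs _ _ hfa)
      -- some v in N(d) not in N(f)
      obtain ⟨v, hv, hdv, hfv⟩ : ∃ v ∈ C, R d v ∧ ¬ R f v := by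
        by_contra hcon
        push Not at hcon
        have hbf : ∀ y ∈ C, R b y → R f y := by
          intro y hy hby
          by_cases hdy : R d y
          · exact hcon y hy hdy
          · exact hfull y (comp_closed hFE haE hbK (mem_filter.2 ⟨hy, hdy⟩) hby)
        exact hgb (hs _ _ (hmax' f hfC hbf g hg hfg))
      have hbv : R b v := hdsub v hv hdv
      have hcv : R c v := hcsub v hv hdv
      -- f - b - v - d inside N(c)
      refine hS c hc ⟨c, hc, hcc⟩ ⟨a, ha, hca⟩ (C.filter (fun y => R c y)) (filter_subset _ _)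
        (Or.inl fun y hy => (mem_filter.1 hy).2) f (mem_filter.2 ⟨hfC, hs _ _ hfc⟩)
        b (mem_filter.2 ⟨hb, hs _ _ hbc⟩) v (mem_filter.2 ⟨hv, hcv⟩)
        d (mem_filter.2 ⟨hd, hcd⟩) hfb hbv (hs _ _ hdv) hfv (fun h => hdf (hs _ _ h)) hbd

theorem good [DecidableEq X] {R : X → X → Prop} (hs : ∀ x y, R x y → R y x) {C : Finset X}
    (hP : Pairs R C) (hS : Sides R C) (h4 : ¬ Free R C) : Good R C := by
  by_cases hnf : ∀ x ∈ C, ∃ y ∈ C, ¬ R x y
  · exact good_nf hs hP hS h4 hnf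
  · push Not at hnf
    obtain ⟨x, hx, hfull⟩ := hnf
    have hs' : ∀ x y, (fun x y => ¬ R x y) x y → (fun x y => ¬ R x y) y x :=
      fun x y h h' => h (hs _ _ h')
    refine Good.compl hs (good_nf hs' hP.compl (hS.compl hs) ?_ ?_)
    · intro hF
      apply h4
      have := hF.compl hs'
      intro a ha b hb c hc d hd h1 h2 h3 h5 h6 h7
      exact this a ha b hb c hc d hd (not_not.2 h1) (not_not.2 h2) (not_not.2 h3)
        (not_not.2 h5) (not_not.2 h6) (not_not.2 h7)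
    · intro y hy
      exact ⟨x, hx, not_not.2 (hs _ _ (hfull y hy))⟩

/-- closed-form: every relation on a finite type with midpoints, and with splitting vertices for
the P4s with loops 0110, has no induced P4. -/
theorem free_univ [Fintype X] [DecidableEq X] {R : X → X → Prop} (hs : ∀ x y, R x y → R y x)
    (hP : ∀ u v, (R u u ↔ R v v) → (R u v ↔ ¬ R u u) →
      ∃ g, (R g g ↔ ¬ R u u) ∧ (R g u ↔ ¬ R u u) ∧ (R g v ↔ ¬ R u u) ∧
        ∀ y, (R u y ↔ R v y) → (R g y ↔ R u y))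
    (hT : ∀ a b c d, R a b → R b c → R c d → ¬ R a c → ¬ R a d → ¬ R b d →
      ¬ R a a → R b b → R c c → ¬ R d d →
      ∃ g, (R g b ↔ ¬ R g c) ∧ (R g a ↔ ¬ R g d) ∧
        ∀ y, (R a y ↔ R b y) → (R b y ↔ R c y) → (R c y ↔ R d y) → (R g y ↔ R a y)) :
    Free R univ := by
  classical
  by_contra hcon
  -- cells
  let Cell : Finset X → Prop := fun C =>
    ∀ g, (∀ p, ((∀ x ∈ C, R x p) → R g p) ∧ ((∀ x ∈ C, ¬ R x p) → ¬ R g p)) → g ∈ C
  let 𝒞 : Finset (Finset X) := univ.filter (fun C => Cell C ∧ ¬ Free R C)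
  have h𝒞 : 𝒞.Nonempty := ⟨univ, mem_filter.2 ⟨mem_univ _, fun g _ => mem_univ g, hcon⟩⟩
  obtain ⟨C, hC, hmin⟩ := exists_min_image 𝒞 Finset.card h𝒞
  obtain ⟨-, hcell, hC4⟩ := mem_filter.1 hC
  have hPC : Pairs R C := by
    intro u hu v hv h1 h2
    obtain ⟨g, h3, h4, h5, h6⟩ := hP u v h1 h2
    refine ⟨g, hcell g fun p => ⟨fun h => ?_, fun h => ?_⟩, h3, h4, h5, fun y _ => h6 y⟩
    · exact (h6 p ⟨fun _ => h v hv, fun _ => h u hu⟩).2 (h u hu)
    · exact fun h' => h u hu ((h6 p ⟨fun h' => (h u hu h').elim, fun h' => (h v hv h').elim⟩).1 h')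
  have hSC : Sides R C := by
    intro w hw h1 h2 D hD h3
    obtain ⟨x₁, hx₁, hw1⟩ := h1
    obtain ⟨x₂, hx₂, hw2⟩ := h2
    rcases h3 with h3 | h3
    · have hFr : Free R (C.filter (fun y => R w y)) := by
        by_contra hF
        have hcell' : Cell (C.filter (fun y => R w y)) := by
          intro g hg
          refine mem_filter.2 ⟨hcell g fun p => ⟨fun h => ?_, fun h => ?_⟩, ?_⟩
          · exact (hg p).1 fun x hx => h x (mem_filter.1 hx).1
          · exact (hg p).2 fun x hx => h x (mem_filter.1 hx).1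
          · exact hs _ _ ((hg w).1 fun x hx => hs _ _ (mem_filter.1 hx).2)
        have hlt : (C.filter (fun y => R w y)).card < C.card :=
          card_lt_card ⟨filter_subset _ _, fun h => hw2 (mem_filter.1 (h hx₂)).2⟩
        exact absurd (hmin _ (mem_filter.2 ⟨mem_univ _, hcell', hF⟩)) (not_le.2 hlt)
      exact hFr.mono fun y hy => mem_filter.2 ⟨hD hy, h3 y hy⟩
    · have hFr : Free R (C.filter (fun y => ¬ R w y)) := by
        by_contra hF
        have hcell' : Cell (C.filter (fun y => ¬ R w y)) := by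
          intro g hg
          refine mem_filter.2 ⟨hcell g fun p => ⟨fun h => ?_, fun h => ?_⟩, ?_⟩
          · exact (hg p).1 fun x hx => h x (mem_filter.1 hx).1
          · exact (hg p).2 fun x hx => h x (mem_filter.1 hx).1
          · exact fun h' => (hg w).2 (fun x hx h => (mem_filter.1 hx).2 (hs _ _ h)) (hs _ _ h')
        have hlt : (C.filter (fun y => ¬ R w y)).card < C.card :=
          card_lt_card ⟨filter_subset _ _, fun h => (mem_filter.1 (h hx₁)).2 hw1⟩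
        exact absurd (hmin _ (mem_filter.2 ⟨mem_univ _, hcell', hF⟩)) (not_le.2 hlt)
      exact hFr.mono fun y hy => mem_filter.2 ⟨hD hy, h3 y hy⟩
  obtain ⟨a, ha, b, hb, c, hc, d, hd, h1, h2, h3, h4, h5, h6, h7, h8, h9, h10, h11⟩ :=
    good hs hPC hSC hC4
  obtain ⟨g, hg1, hg2, hg3⟩ := hT a b c d h1 h2 h3 h4 h5 h6 h7 h8 h9 h10
  refine h11 g (hcell g fun p => ⟨fun h => ?_, fun h => ?_⟩) ⟨hg1, hg2⟩
  · have := h a ha; have := h b hb; have := h c hc; have := h d hd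
    exact (hg3 p (by tauto) (by tauto) (by tauto)).2 (h a ha)
  · have := h a ha; have := h b hb; have := h c hc; have := h d hd
    exact fun h' => h a ha ((hg3 p (by tauto) (by tauto) (by tauto)).1 h')

end Pool.Agent.H22.P4
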